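import Mathlib
import Pool.Agent.Run7.h227.Split

/-!
Systems which split into parts over disjoint sets of unknowns.
-/

set_option autoImplicit false

namespace Pool.Agent.Results.MP_48f3d1_lc.Components

open Run7.h227

/-- Let `S` be a system of word equations without constants over the finite set `A` of unknowns, and
let `f : A → ι` be a colouring of the unknowns such that each equation of `S` contains unknowns of at
most one colour. Then, for every alphabet `B` with at least two letters, `S` is an F-presentation over
`B` if and only if, for every colour `i`, the system of the equations of `S` over the unknowns of
colour `i` is. -/
theorem result {A B ι : Type} [Finite A] [Nontrivial B] (S : System A) (f : A → ι)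
    (hS : ∀ e ∈ S, ∃ i, ∀ a ∈ e.1 ++ e.2, f a = i) :
    IsFPresentation B S ↔ ∀ i, IsFPresentation B (part S f i) :=
  split_iff hS

end Pool.Agent.Results.MP_48f3d1_lc.Components
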