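import Mathlib
import Pool.Agent.Run7.h227.Rank

/-!
Solutions whose rank is the dimension of the space of solutions of the length equations.
-/

set_option autoImplicit false

namespace Pool.Agent.Results.MP_48f3d1_lc.FullRank

open Run7.h227 Module

/-- Let `S` be a system of word equations without constants over the finite set `A` of unknowns, and
let `h` be a solution of `S`, over any alphabet `C`, whose rank is at least the dimension of the space
of rational solutions of the length equations of `S` (then it is equal to it). Then, for every
alphabet `B` with at least two letters, `S` is an F-presentation over `B` if and only if the words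
`h a` are nonempty and pairwise different. -/
theorem result {A B C : Type} [Finite A] [Nontrivial B] (S : System A) (h : A → List C)
    (hs : IsSol S h) (hr : finrank ℚ (lengthSpace S) ≤ rank h) :
    IsFPresentation B S ↔ ((∀ a, h a ≠ []) ∧ Function.Injective h) := by
  obtain ⟨g, hg⟩ := exists_recoding (B := B) h
  have hgs : IsSol S g := (isSol_of_rel hg).mpr hs
  constructor
  · rintro ⟨X, hX⟩
    have h1 : ∀ u v : List A, ext h u = ext h v → ext X u = ext X v :=
      fun u v huv => generic_of_rank hs hr hX.2.2.1 huv
    exact ⟨fun a => nonempty_of_rel h1 (hX.1 a), injective_of_rel h1 hX.2.1⟩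
  · rintro ⟨h1, h2⟩
    refine ⟨g, fpresents_of ?_ ?_ hgs ?_⟩
    · intro a; exact nonempty_of_rel (fun u v => (hg u v).mp) (h1 a)
    · exact injective_of_rel (fun u v => (hg u v).mp) h2
    · intro k hk u v huv
      exact generic_of_rank hs hr hk ((hg u v).mp huv)

end Pool.Agent.Results.MP_48f3d1_lc.FullRank
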