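import Mathlib
import Pool.Agent.Run7.h227.LowDim
import Pool.Agent.Run7.h227.Split

/-!
Systems which split into parts with length spaces of dimension at most two.
-/

set_option autoImplicit false

namespace Pool.Agent.Results.MP_48f3d1_lc.LowDimension

open Run7.h227 Module

/-- Let `S` be a system of word equations without constants over the finite set `A` of unknowns, and
let `f : A → ι` be a colouring of the unknowns such that each equation of `S` contains unknowns of at
most one colour (for instance a constant colouring). Suppose that for every colour `i` the length
equations of the system of all equations of `S` over the unknowns of colour `i` have a space of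
rational solutions of dimension at most two. Then, for every alphabet `B` with at least two letters,
`S` is an F-presentation over `B` if and only if each of these systems has a solution over `B` by
nonempty, pairwise different words, not all of which commute in case the dimension is two. -/
theorem result {A B ι : Type} [Finite A] [Nontrivial B] (S : System A) (f : A → ι)
    (hS : ∀ e ∈ S, ∃ i, ∀ a ∈ e.1 ++ e.2, f a = i)
    (hd : ∀ i, finrank ℚ (lengthSpace (part S f i)) ≤ 2) :
    IsFPresentation B S ↔ ∀ i, ∃ h : {a : A // f a = i} → List B,
      IsSol (part S f i) h ∧ (∀ a, h a ≠ []) ∧ Function.Injective h ∧
        (finrank ℚ (lengthSpace (part S f i)) = 2 → ∃ a b, h a ++ h b ≠ h b ++ h a) := by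
  rw [split_iff hS]
  exact forall_congr' fun i => low_dim (hd i)

end Pool.Agent.Results.MP_48f3d1_lc.LowDimension
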