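import Mathlib
import Pool.Agent.Run7.h227.Example

/-!
An F-presentation without solutions of full rank.
-/

set_option autoImplicit false

namespace Pool.Agent.Results.MP_48f3d1_lc.RankDeficient

open Run7.h227 Module

/-- There is a system of two word equations in four unknowns which is an F-presentation over every
alphabet with at least two letters, whose length equations have a three-dimensional space of
solutions, and all of whose solutions, over all alphabets, have rank at most two. -/
theorem result : ∃ S : System (Fin 4), S.ncard = 2 ∧
    (∀ (B : Type) [Nontrivial B], IsFPresentation B S) ∧ finrank ℚ (lengthSpace S) = 3 ∧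
      ∀ (C : Type) (h : Fin 4 → List C), IsSol S h → rank h ≤ 2 :=
  ⟨S₀, Set.ncard_pair (by simp), fun _ _ => isFPresentation_S₀, finrank_S₀,
    fun _ _ hs => rank_S₀ hs⟩

end Pool.Agent.Results.MP_48f3d1_lc.RankDeficient
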